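import Mathlib

/-!
# From even numbers divisible by no `d ∈ D` to the numbers `2 p`, `p` prime

If for all large `X` there is a set `D` of integers `d ≥ log X` such that at most `X^(θ+ε/2)` of the
even `n ≤ X` divisible by no `d ∈ D` with `d ≤ n^(1-θ)` have the property `P`, then for all large `X`
at most `X^(θ+ε)` of the primes `p ≤ X` are such that `2 p` has the property `P`: for `d ∣ 2 p` and
`d ≥ log (2 X)` large, `p` divides `d` and `(2 p)^(1-θ) < p` (`θ ≥ 1/7`, `p > 64`).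
-/

set_option autoImplicit false

namespace Pool.MP_dd84fd_nt.XP

open Finset

/-- a divisor `d > 128` of `2 p` exceeds `(2 p)^(1-θ)` -/
theorem dvd_two_mul {θ : ℝ} (h1 : 1 / 7 ≤ θ) {p d : ℕ} (hp : p.Prime) (hd : 128 < d)
    (hdvd : d ∣ 2 * p) : ((2 * p : ℕ) : ℝ) ^ (1 - θ) < (d : ℝ) := by
  have hpd : p ∣ d := by
    by_contra hc
    have hco : Nat.Coprime d p := (Nat.Coprime.symm ((Nat.Prime.coprime_iff_not_dvd hp).2 hc))
    have : d ∣ 2 := hco.dvd_of_dvd_mul_right hdvd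
    have := Nat.le_of_dvd (by norm_num) this
    omega
  have hd0 : 0 < d := by omega
  have hple : p ≤ d := Nat.le_of_dvd hd0 hpd
  have hdle : d ≤ 2 * p := Nat.le_of_dvd (by have := hp.pos; omega) hdvd
  have hp64 : 64 < p := by omega
  have hpr : (64 : ℝ) < (p : ℝ) := by exact_mod_cast hp64
  have hp0 : (0 : ℝ) < (p : ℝ) := by linarith
  have hcast : ((2 * p : ℕ) : ℝ) = 2 * (p : ℝ) := by push_cast; ring
  have h2p : (1 : ℝ) ≤ 2 * (p : ℝ) := by linarith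
  calc ((2 * p : ℕ) : ℝ) ^ (1 - θ) = (2 * (p : ℝ)) ^ (1 - θ) := by rw [hcast]
    _ ≤ (2 * (p : ℝ)) ^ ((6 : ℝ) / 7) := Real.rpow_le_rpow_of_exponent_le h2p (by linarith)
    _ < (p : ℝ) := by
        have h3 : ((2 * (p : ℝ)) ^ ((6 : ℝ) / 7)) ^ (7 : ℕ) < (p : ℝ) ^ (7 : ℕ) := by
          rw [← Real.rpow_natCast, ← Real.rpow_mul (by linarith)]
          norm_num
          have : (2 * (p : ℝ)) ^ 6 = 64 * (p : ℝ) ^ 6 := by ring
          rw [this]
          have h6 : (0 : ℝ) < (p : ℝ) ^ 6 := by positivity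
          nlinarith
        exact lt_of_pow_lt_pow_left₀ 7 hp0.le h3
    _ ≤ (d : ℝ) := by exact_mod_cast hple

open Classical in
theorem two_p {P : ℕ → Prop} {θ ε : ℝ} (h1 : 1 / 7 ≤ θ) (hε : 0 < ε)
    (h : ∃ X₀ : ℕ, ∀ X : ℕ, X₀ ≤ X → ∃ D : Finset ℕ, (∀ d ∈ D, Real.log X ^ 1 ≤ (d : ℝ)) ∧
      (((Icc 1 X).filter (fun n : ℕ => Even n ∧
        (∀ d ∈ D, (d : ℝ) ≤ (n : ℝ) ^ (1 - θ) → ¬ d ∣ n) ∧ P n)).card : ℝ) ≤
          (X : ℝ) ^ (θ + ε / 2)) :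
    ∃ X₀ : ℕ, ∀ X : ℕ, X₀ ≤ X →
      (((Icc 1 X).filter (fun p : ℕ => p.Prime ∧ P (2 * p))).card : ℝ) ≤ (X : ℝ) ^ (θ + ε) := by
  obtain ⟨X0, hX0⟩ := h
  have ht1 : Filter.Tendsto (fun X : ℕ => (X : ℝ) ^ (ε / 2)) Filter.atTop Filter.atTop :=
    (tendsto_rpow_atTop (by linarith)).comp tendsto_natCast_atTop_atTop
  have ht2 : Filter.Tendsto (fun X : ℕ => Real.log (X : ℝ)) Filter.atTop Filter.atTop :=
    Real.tendsto_log_atTop.comp tendsto_natCast_atTop_atTop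
  have hev : ∀ᶠ X : ℕ in Filter.atTop, X0 ≤ X ∧ 1 ≤ X ∧ 129 ≤ Real.log (X : ℝ) ∧
      (2 : ℝ) ^ (θ + ε / 2) ≤ (X : ℝ) ^ (ε / 2) := by
    filter_upwards [Filter.eventually_ge_atTop X0, Filter.eventually_ge_atTop 1,
      ht2.eventually_ge_atTop 129, ht1.eventually_ge_atTop ((2 : ℝ) ^ (θ + ε / 2))]
      with X a b c d using ⟨a, b, c, d⟩
  obtain ⟨X1, hX1⟩ := Filter.eventually_atTop.1 hev
  refine ⟨X1, fun X hX => ?_⟩
  obtain ⟨ha, hb, hc, hd⟩ := hX1 X hX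
  obtain ⟨D, hD1, hD2⟩ := hX0 (2 * X) (by omega)
  have hXr : (1 : ℝ) ≤ (X : ℝ) := by exact_mod_cast hb
  have hcast : ((2 * X : ℕ) : ℝ) = 2 * (X : ℝ) := by push_cast; ring
  have hcard : ((Icc 1 X).filter (fun p : ℕ => p.Prime ∧ P (2 * p))).card ≤
      ((Icc 1 (2 * X)).filter (fun n : ℕ => Even n ∧
        (∀ d ∈ D, (d : ℝ) ≤ (n : ℝ) ^ (1 - θ) → ¬ d ∣ n) ∧ P n)).card := by
    apply Finset.card_le_card_of_injOn (fun p => 2 * p)
    · intro p hp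
      rw [Finset.mem_coe, Finset.mem_filter, Finset.mem_Icc] at hp
      have hlo : 1 ≤ 2 * p := by omega
      have hhi : 2 * p ≤ 2 * X := by omega
      rw [Finset.mem_coe, Finset.mem_filter, Finset.mem_Icc]
      refine ⟨⟨hlo, hhi⟩, even_two_mul p, fun d hdD hle hdvd => ?_, hp.2.2⟩
      have hlog : Real.log (X : ℝ) ≤ Real.log ((2 * X : ℕ) : ℝ) := by
        apply Real.log_le_log (by linarith)
        rw [hcast]; linarith
      have hdr : (128 : ℝ) < (d : ℝ) := by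
        have := hD1 d hdD
        rw [pow_one] at this
        linarith
      have hdn : 128 < d := by exact_mod_cast hdr
      exact absurd hle (not_le.2 (dvd_two_mul h1 hp.2.1 hdn hdvd))
    · intro a _ b _ hab
      have : 2 * a = 2 * b := hab
      omega
  calc (((Icc 1 X).filter (fun p : ℕ => p.Prime ∧ P (2 * p))).card : ℝ)
      ≤ (((Icc 1 (2 * X)).filter (fun n : ℕ => Even n ∧
        (∀ d ∈ D, (d : ℝ) ≤ (n : ℝ) ^ (1 - θ) → ¬ d ∣ n) ∧ P n)).card : ℝ) := by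
        exact_mod_cast hcard
    _ ≤ ((2 * X : ℕ) : ℝ) ^ (θ + ε / 2) := hD2
    _ = (2 : ℝ) ^ (θ + ε / 2) * (X : ℝ) ^ (θ + ε / 2) := by
        rw [hcast, Real.mul_rpow (by norm_num) (by linarith)]
    _ ≤ (X : ℝ) ^ (ε / 2) * (X : ℝ) ^ (θ + ε / 2) :=
        mul_le_mul_of_nonneg_right hd (Real.rpow_nonneg (by linarith) _)
    _ = (X : ℝ) ^ (θ + ε) := by
        rw [← Real.rpow_add (by linarith)]
        congr 1
        ring

end Pool.MP_dd84fd_nt.XP
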