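import Mathlib

/-!
# From almost all windows to every interval (helper44)

If for all but `b` of the `n ≤ X` every window `[n, n+W]`, `n + W ≤ X`, contains at most `c + W/k` even
numbers with the property `P`, then EVERY interval `[n, n+W]`, `W ≥ b`, contains at most `b + c + W/k`
of them.
-/

set_option autoImplicit false

namespace Pool.MP_dd84fd_nt.XP

open Finset

open Classical in
theorem every_at {P : ℕ → Prop} {X : ℕ} {b c k : ℝ} (hk : 0 < k)
    (h : (((Icc 1 X).filter (fun n => ∃ W : ℕ, n + W ≤ X ∧ c + W / k <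
      (((Icc n (n + W)).filter (fun m => Even m ∧ P m)).card : ℝ))).card : ℝ) ≤ b)
    (n W : ℕ) (hn : 1 ≤ n) (hnW : n + W ≤ X) (hb : b ≤ W) :
    (((Icc n (n + W)).filter (fun m => Even m ∧ P m)).card : ℝ) ≤ b + c + W / k := by
  obtain ⟨Bad, hBad⟩ : ∃ Bad : Finset ℕ, Bad = (Icc 1 X).filter (fun n => ∃ W : ℕ, n + W ≤ X ∧
    c + W / k < (((Icc n (n + W)).filter (fun m => Even m ∧ P m)).card : ℝ)) := ⟨_, rfl⟩
  rw [← hBad] at h
  have hb0 : 0 ≤ b := (Nat.cast_nonneg _).trans h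
  obtain ⟨s, hs⟩ : ∃ s : ℕ, s = ⌊b⌋₊ := ⟨_, rfl⟩
  have hsb : (s : ℝ) ≤ b := by rw [hs]; exact Nat.floor_le hb0
  have hbs : b < s + 1 := by rw [hs]; exact Nat.lt_floor_add_one b
  have hsW : s ≤ W := by
    have : (s : ℝ) ≤ W := hsb.trans hb
    exact_mod_cast this
  have hBs : Bad.card ≤ s := by
    have : (Bad.card : ℝ) < s + 1 := lt_of_le_of_lt h hbs
    have h2 : Bad.card < s + 1 := by exact_mod_cast this
    omega
  obtain ⟨n', h1, h2⟩ : ∃ n' ∈ Icc n (n + s), n' ∉ Bad := by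
    by_contra hcon
    push Not at hcon
    have h3 : Icc n (n + s) ⊆ Bad := hcon
    have h4 := card_le_card h3
    rw [Nat.card_Icc] at h4
    omega
  rw [mem_Icc] at h1
  have h5 : n' + (n + W - n') ≤ X := by omega
  have h6 : (((Icc n' (n' + (n + W - n'))).filter (fun m => Even m ∧ P m)).card : ℝ) ≤
      c + ((n + W - n' : ℕ) : ℝ) / k := by
    by_contra hcon
    push Not at hcon
    refine h2 ?_
    rw [hBad, mem_filter, mem_Icc]
    exact ⟨⟨by omega, by omega⟩, _, h5, hcon⟩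
  have h7 : ((n + W - n' : ℕ) : ℝ) / k ≤ W / k := by
    refine div_le_div_of_nonneg_right ?_ hk.le
    exact_mod_cast (by omega : n + W - n' ≤ W)
  have h8 : (Icc n (n + W)).filter (fun m => Even m ∧ P m) ⊆
      Ico n n' ∪ (Icc n' (n' + (n + W - n'))).filter (fun m => Even m ∧ P m) := by
    intro m hm
    rw [mem_filter, mem_Icc] at hm
    rw [mem_union, mem_Ico, mem_filter, mem_Icc]
    by_cases hmn : m < n'
    · exact Or.inl ⟨hm.1.1, hmn⟩
    · exact Or.inr ⟨⟨by omega, by omega⟩, hm.2⟩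
  have h9 : ((Icc n (n + W)).filter (fun m => Even m ∧ P m)).card ≤
      s + ((Icc n' (n' + (n + W - n'))).filter (fun m => Even m ∧ P m)).card := by
    refine (card_le_card h8).trans ((card_union_le _ _).trans ?_)
    rw [Nat.card_Ico]
    omega
  have h10 : (((Icc n (n + W)).filter (fun m => Even m ∧ P m)).card : ℝ) ≤
      s + (((Icc n' (n' + (n + W - n'))).filter (fun m => Even m ∧ P m)).card : ℝ) := by
    exact_mod_cast h9
  linarith

open Classical in
/-- every interval of length `≥ X^(θ+ε)` -/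
theorem every_log {θ ε : ℝ} (hθ : 0 ≤ θ) (hε : 0 < ε) (C K : ℕ) : ∃ X₁ : ℕ, ∀ X : ℕ, X₁ ≤ X →
    ∀ (P : ℕ → Prop) (c : ℝ), c ≤ Real.log X ^ C →
      (((Icc 1 X).filter (fun n => ∃ W : ℕ, n + W ≤ X ∧ c + W / Real.log X ^ (K + 1) <
        (((Icc n (n + W)).filter (fun m => Even m ∧ P m)).card : ℝ))).card : ℝ) ≤
          (X : ℝ) ^ (θ + ε / 2) →
      ∀ n W : ℕ, 1 ≤ n → n + W ≤ X → (X : ℝ) ^ (θ + ε) ≤ W →
        (((Icc n (n + W)).filter (fun m => Even m ∧ P m)).card : ℝ) ≤ W / Real.log X ^ K := by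
  have ht : ∀ᶠ X : ℕ in Filter.atTop, Real.log (X : ℝ) ^ (K + C) ≤ (1 / 4) * (X : ℝ) ^ (ε / 2) := by
    have h1 := (isLittleO_log_rpow_rpow_atTop ((K + C : ℕ) : ℝ) (show 0 < ε / 2 by linarith)).bound
      (show (0 : ℝ) < 1 / 4 by norm_num)
    have h2 := tendsto_natCast_atTop_atTop (R := ℝ) |>.eventually h1
    filter_upwards [h2] with X hX
    have h3 := (le_abs_self _).trans hX
    rw [Real.rpow_natCast, Real.norm_of_nonneg (by positivity)] at h3
    exact h3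
  have ht3 : Filter.Tendsto (fun X : ℕ => Real.log (X : ℝ)) Filter.atTop Filter.atTop :=
    Real.tendsto_log_atTop.comp tendsto_natCast_atTop_atTop
  have hev : ∀ᶠ X : ℕ in Filter.atTop, 1 ≤ X ∧ Real.log (X : ℝ) ^ (K + C) ≤
      (1 / 4) * (X : ℝ) ^ (ε / 2) ∧ 2 ≤ Real.log (X : ℝ) := by
    filter_upwards [Filter.eventually_ge_atTop 1, ht, ht3.eventually_ge_atTop 2] with X a b c
      using ⟨a, b, c⟩
  obtain ⟨X1, hX1⟩ := Filter.eventually_atTop.1 hev
  refine ⟨X1, fun X hX P c hc h n W hn hnW hW => ?_⟩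
  obtain ⟨x1, x2, x3⟩ := hX1 X hX
  have hXR : (1 : ℝ) ≤ X := by exact_mod_cast x1
  have hXp : (0 : ℝ) < X := by linarith
  obtain ⟨L, hL⟩ : ∃ L : ℝ, L = Real.log X := ⟨_, rfl⟩
  rw [← hL] at hc h x2 x3 ⊢
  have hL0 : 0 < L := by linarith
  have hL1 : 1 ≤ L := by linarith
  have hLK : 0 < L ^ K := by positivity
  have hb : (X : ℝ) ^ (θ + ε / 2) ≤ W :=
    (Real.rpow_le_rpow_of_exponent_le hXR (by linarith)).trans hW
  have h1 := every_at (by positivity) h n W hn hnW hb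
  refine h1.trans ?_
  -- the three terms
  obtain ⟨a, ha⟩ : ∃ a : ℝ, a = (X : ℝ) ^ θ := ⟨_, rfl⟩
  obtain ⟨e, he⟩ : ∃ e : ℝ, e = (X : ℝ) ^ (ε / 2) := ⟨_, rfl⟩
  have ha1 : 1 ≤ a := by rw [ha]; exact Real.one_le_rpow hXR hθ
  have he1 : 1 ≤ e := by rw [he]; exact Real.one_le_rpow hXR (by linarith)
  have e1 : (X : ℝ) ^ (θ + ε / 2) = a * e := by rw [ha, he, ← Real.rpow_add hXp]
  have e2 : (X : ℝ) ^ (θ + ε) = a * e * e := by
    rw [ha, he, ← Real.rpow_add hXp, ← Real.rpow_add hXp]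
    congr 1
    ring
  rw [e2] at hW
  rw [e1]
  rw [← he] at x2
  have hae : 1 ≤ a * e := by nlinarith
  have i1 : L ^ K ≤ L ^ (K + C) := pow_le_pow_right₀ hL1 (by omega)
  have i2 : a * e ≤ W / (4 * L ^ K) := by
    rw [le_div_iff₀ (by positivity)]
    calc a * e * (4 * L ^ K) ≤ a * e * e :=
          mul_le_mul_of_nonneg_left (by linarith) (by linarith)
      _ ≤ W := hW
  have i3 : c ≤ W / (4 * L ^ K) := by
    rw [le_div_iff₀ (by positivity)]
    calc c * (4 * L ^ K) ≤ L ^ C * (4 * L ^ K) := mul_le_mul_of_nonneg_right hc (by positivity)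
      _ = 4 * L ^ (K + C) := by rw [pow_add]; ring
      _ ≤ e := by linarith
      _ ≤ a * e * e := by nlinarith
      _ ≤ W := hW
  have i4 : (W : ℝ) / L ^ (K + 1) ≤ W / (2 * L ^ K) := by
    refine div_le_div_of_nonneg_left (Nat.cast_nonneg _) (by positivity) ?_
    rw [pow_succ, mul_comm]
    exact mul_le_mul_of_nonneg_left x3 hLK.le
  have i5 : (W : ℝ) / L ^ K = W / (4 * L ^ K) + W / (4 * L ^ K) + W / (2 * L ^ K) := by
    field_simp
    ring
  rw [i5]
  linarith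

end Pool.MP_dd84fd_nt.XP
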