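import Mathlib

/-!
# Windows of any length: few exceptions in every interval starting at all but few `n`

One-sided maximal inequality and its use: if for all scales `X^θ ≤ Y ≤ X` there is a set `D` of at
most `M ≤ (log X)^C` integers `d ≥ (log Y)^(K+C+2)` such that at most `Y^(θ+ε/2)` of the even
numbers `Y/2 < n ≤ Y` divisible by no `d ∈ D` have the property `P`, then for all but at most
`X^(θ+ε)` of the `n ≤ X`: for every `W` with `n + W ≤ X` at most `2M + W/(log X)^K` of the even `m`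
with `n ≤ m ≤ n + W` have the property `P`.
-/

set_option autoImplicit false

namespace Pool.MP_dd84fd_nt.XP

open Finset

open Classical in
/-- one-sided maximal inequality, inductive form -/
theorem greedy_aux (E : Finset ℕ) (lam : ℝ) (X : ℕ) : ∀ k a : ℕ, a + k = X + 1 →
    ∀ b : ℕ, a ≤ b → b ≤ X + 1 →
      lam * (((Ico a (X + 1)).filter (fun n => ∃ W : ℕ, n + W ≤ X ∧ lam * (W + 1) <
        ((E.filter (fun m => n ≤ m ∧ m < n + W + 1)).card : ℝ))).card : ℝ) +
        ((E.filter (fun m => a ≤ m ∧ m < b)).card : ℝ) - lam * ((b : ℝ) - a) ≤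
        ((E.filter (fun m => a ≤ m ∧ m < X + 1)).card : ℝ) := by
  intro k
  induction k with
  | zero =>
    intro a ha b hab hb
    have h1 : a = X + 1 := by omega
    have h2 : b = X + 1 := by omega
    subst h1
    rw [h2]
    simp
  | succ k ih =>
    intro a ha b hab hb
    have ih' := ih (a + 1) (by omega)
    have hsplit : Ico a (X + 1) = insert a (Ico (a + 1) (X + 1)) := by
      ext t
      rw [mem_insert, mem_Ico, mem_Ico]
      omega
    have hE : ∀ c : ℕ, a + 1 ≤ c → ((E.filter (fun m => a ≤ m ∧ m < c)).card : ℝ) =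
        (if a ∈ E then 1 else 0) + ((E.filter (fun m => a + 1 ≤ m ∧ m < c)).card : ℝ) := by
      intro c hc
      by_cases haE : a ∈ E
      · have h3 : E.filter (fun m => a ≤ m ∧ m < c) =
            insert a (E.filter (fun m => a + 1 ≤ m ∧ m < c)) := by
          ext t
          rw [mem_insert, mem_filter, mem_filter]
          constructor
          · rintro ⟨h4, h5, h6⟩
            by_cases h7 : t = a
            · exact Or.inl h7
            · exact Or.inr ⟨h4, by omega, h6⟩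
          · rintro (h4 | ⟨h4, h5, h6⟩)
            · subst h4
              exact ⟨haE, le_refl _, by omega⟩
            · exact ⟨h4, by omega, h6⟩
        rw [h3, card_insert_of_notMem]
        · simp only [haE, if_true]
          push_cast
          ring
        · rw [mem_filter]
          rintro ⟨_, h5, _⟩
          omega
      · have h3 : E.filter (fun m => a ≤ m ∧ m < c) =
            E.filter (fun m => a + 1 ≤ m ∧ m < c) := by
          refine filter_congr fun t ht => ?_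
          constructor
          · rintro ⟨h5, h6⟩
            refine ⟨?_, h6⟩
            rcases Nat.eq_or_lt_of_le h5 with h7 | h7
            · exact absurd (h7 ▸ ht) haE
            · exact h7
          · rintro ⟨h5, h6⟩
            exact ⟨by omega, h6⟩
        rw [h3]
        simp only [haE, if_false]
        ring
    have hEX := hE (X + 1) (by omega)
    by_cases hbad : ∃ W : ℕ, a + W ≤ X ∧ lam * (W + 1) <
        ((E.filter (fun m => a ≤ m ∧ m < a + W + 1)).card : ℝ)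
    · have hB : (((Ico a (X + 1)).filter (fun n => ∃ W : ℕ, n + W ≤ X ∧ lam * (W + 1) <
          ((E.filter (fun m => n ≤ m ∧ m < n + W + 1)).card : ℝ))).card : ℝ) =
          1 + (((Ico (a + 1) (X + 1)).filter (fun n => ∃ W : ℕ, n + W ≤ X ∧ lam * (W + 1) <
          ((E.filter (fun m => n ≤ m ∧ m < n + W + 1)).card : ℝ))).card : ℝ) := by
        rw [hsplit, filter_insert, if_pos hbad, card_insert_of_notMem]
        · push_cast
          ring
        · rw [mem_filter, mem_Ico]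
          rintro ⟨⟨h5, _⟩, _⟩
          omega
      have key : ∀ c : ℕ, a + 1 ≤ c → c ≤ X + 1 →
          lam * (((Ico a (X + 1)).filter (fun n => ∃ W : ℕ, n + W ≤ X ∧ lam * (W + 1) <
            ((E.filter (fun m => n ≤ m ∧ m < n + W + 1)).card : ℝ))).card : ℝ) +
          ((E.filter (fun m => a ≤ m ∧ m < c)).card : ℝ) - lam * ((c : ℝ) - a) ≤
          ((E.filter (fun m => a ≤ m ∧ m < X + 1)).card : ℝ) := by
        intro c hc1 hc2
        have h6 := ih' c hc1 hc2
        rw [hB, hE c hc1, hEX]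
        push_cast at h6
        linarith
      rcases Nat.eq_or_lt_of_le hab with h7 | h7
      · obtain ⟨W, hW1, hW2⟩ := hbad
        have h8 := key (a + W + 1) (by omega) (by omega)
        rw [← h7]
        have h9 : (E.filter (fun m => a ≤ m ∧ m < a)).card = 0 := by
          rw [card_eq_zero, filter_eq_empty_iff]
          intro t _
          omega
        rw [h9]
        push_cast at h8 ⊢
        linarith
      · exact key b h7 hb
    · have hB : (Ico a (X + 1)).filter (fun n => ∃ W : ℕ, n + W ≤ X ∧ lam * (W + 1) <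
          ((E.filter (fun m => n ≤ m ∧ m < n + W + 1)).card : ℝ)) =
          (Ico (a + 1) (X + 1)).filter (fun n => ∃ W : ℕ, n + W ≤ X ∧ lam * (W + 1) <
          ((E.filter (fun m => n ≤ m ∧ m < n + W + 1)).card : ℝ)) := by
        rw [hsplit, filter_insert, if_neg hbad]
      have h6 := ih' (a + 1) (le_refl _) (by omega)
      have h9 : (E.filter (fun m => a + 1 ≤ m ∧ m < a + 1)).card = 0 := by
        rw [card_eq_zero, filter_eq_empty_iff]
        intro t _
        omega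
      rw [h9] at h6
      have h10 : (0 : ℝ) ≤ (if a ∈ E then (1 : ℝ) else 0) := by split_ifs <;> norm_num
      rcases Nat.eq_or_lt_of_le hab with h7 | h7
      · have h11 : (E.filter (fun m => a ≤ m ∧ m < a)).card = 0 := by
          rw [card_eq_zero, filter_eq_empty_iff]
          intro t _
          omega
        rw [← h7, h11, hB, hEX]
        push_cast at h6 ⊢
        linarith
      · have h12 : ¬ (lam * (((b - a - 1 : ℕ) : ℝ) + 1) <
            ((E.filter (fun m => a ≤ m ∧ m < a + (b - a - 1) + 1)).card : ℝ)) := by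
          intro h13
          exact hbad ⟨b - a - 1, by omega, h13⟩
        have h14 : a + (b - a - 1) + 1 = b := by omega
        rw [h14] at h12
        have h15 : ((b - a - 1 : ℕ) : ℝ) + 1 = (b : ℝ) - a := by
          have : ((b - a - 1 : ℕ) : ℝ) = (b : ℝ) - a - 1 := by
            have h16 : b = (b - a - 1) + a + 1 := by omega
            have h17 : (b : ℝ) = ((b - a - 1 : ℕ) : ℝ) + a + 1 := by exact_mod_cast h16
            linarith
          rw [this]
          ring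
        rw [h15] at h12
        push Not at h12
        rw [hB, hEX]
        push_cast at h6 ⊢
        linarith

open Classical in
/-- one-sided maximal inequality -/
theorem greedy (E : Finset ℕ) (lam : ℝ) (X : ℕ) :
    lam * (((Icc 1 X).filter (fun n => ∃ W : ℕ, n + W ≤ X ∧ lam * (W + 1) <
      ((E.filter (fun m => n ≤ m ∧ m < n + W + 1)).card : ℝ))).card : ℝ) ≤ (E.card : ℝ) := by
  have h1 := greedy_aux E lam X X 1 (by omega) 1 (le_refl _) (by omega)
  have h2 : (E.filter (fun m => 1 ≤ m ∧ m < 1)).card = 0 := by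
    rw [card_eq_zero, filter_eq_empty_iff]
    intro t _
    omega
  have h3 : Ico 1 (X + 1) = Icc 1 X := by
    ext t
    rw [mem_Ico, mem_Icc]
    omega
  rw [h2, h3] at h1
  have h4 : ((E.filter (fun m => 1 ≤ m ∧ m < X + 1)).card : ℝ) ≤ (E.card : ℝ) :=
    Nat.cast_le.2 (card_filter_le _ _)
  push_cast at h1
  linarith

/-- multiples in an interval -/
theorem mult_card (d n W : ℕ) :
    ((Icc n (n + W)).filter (fun m => d ∣ m)).card ≤ W / d + 1 := by
  by_cases hne : ((Icc n (n + W)).filter (fun m => d ∣ m)).Nonempty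
  · obtain ⟨m0, hm0, hmin⟩ := exists_min_image _ (fun m : ℕ => m) hne
    rw [mem_filter, mem_Icc] at hm0
    have h1 : ((Icc n (n + W)).filter (fun m => d ∣ m)).card ≤ (range (W / d + 1)).card := by
      refine card_le_card_of_injOn (fun m => (m - m0) / d) ?_ ?_
      · intro m hm
        have h2 := hmin m hm
        rw [mem_coe, mem_filter, mem_Icc] at hm
        rw [mem_coe, mem_range]
        exact Nat.lt_succ_of_le (Nat.div_le_div_right (by omega))
      · intro m hm m' hm' heq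
        have h2 := hmin m hm
        have h3 := hmin m' hm'
        rw [mem_coe, mem_filter, mem_Icc] at hm hm'
        have h4 : d ∣ m - m0 := Nat.dvd_sub hm.2 hm0.2
        have h5 : d ∣ m' - m0 := Nat.dvd_sub hm'.2 hm0.2
        have h6 : (m - m0) / d = (m' - m0) / d := heq
        have h7 := Nat.div_mul_cancel h4
        have h8 := Nat.div_mul_cancel h5
        rw [h6] at h7
        have h9 : m - m0 = m' - m0 := h7.symm.trans h8
        have h10 : m0 ≤ m := h2
        have h11 : m0 ≤ m' := h3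
        omega
    rwa [card_range] at h1
  · rw [not_nonempty_iff_eq_empty] at hne
    rw [hne, card_empty]
    exact Nat.zero_le _

/-- the dyadic scale of `m` -/
theorem scale_ex {X m : ℕ} (h1 : 1 ≤ m) (h2 : m ≤ X) :
    ∃ i < Nat.log 2 X + 1, m ≤ X / 2 ^ i ∧ X / 2 ^ i < 2 * m := by
  obtain ⟨i, hi⟩ : ∃ i : ℕ, i = Nat.log 2 (X / m) := ⟨_, rfl⟩
  have hq : X / m ≠ 0 := by
    have : 0 < X / m := Nat.div_pos h2 (by omega)
    omega
  refine ⟨i, ?_, ?_, ?_⟩
  · rw [hi]
    exact Nat.lt_succ_of_le (Nat.log_mono_right (Nat.div_le_self _ _))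
  · have h3 : 2 ^ i ≤ X / m := by rw [hi]; exact Nat.pow_log_le_self 2 hq
    rw [Nat.le_div_iff_mul_le (by positivity)]
    rw [Nat.le_div_iff_mul_le (by omega)] at h3
    rw [mul_comm]
    exact h3
  · have h3 : X / m < 2 ^ (i + 1) := by rw [hi]; exact Nat.lt_pow_succ_log_self (by norm_num) _
    rw [Nat.div_lt_iff_lt_mul (by omega)] at h3
    rw [Nat.div_lt_iff_lt_mul (by positivity)]
    rw [pow_succ] at h3
    nlinarith

/-- two scales are enough below `2n` -/
theorem scale_two {X n : ℕ} (h1 : 1 ≤ n) (h2 : n ≤ X) :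
    ∃ I : Finset ℕ, I.card ≤ 2 ∧ ∀ m : ℕ, n ≤ m → m < 2 * n → m ≤ X →
      ∃ i ∈ I, m ≤ X / 2 ^ i ∧ X / 2 ^ i < 2 * m := by
  obtain ⟨i, _, hi2, hi3⟩ := scale_ex h1 h2
  refine ⟨{i, i - 1}, card_le_two, fun m hm1 hm2 hm3 => ?_⟩
  by_cases hm : m ≤ X / 2 ^ i
  · exact ⟨i, by simp, hm, by omega⟩
  · push Not at hm
    have hi0 : i ≠ 0 := by
      rintro rfl
      rw [pow_zero, Nat.div_one] at hm
      omega
    refine ⟨i - 1, by simp, ?_⟩
    have h3 : X / 2 ^ i = X / 2 ^ (i - 1) / 2 := by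
      rw [Nat.div_div_eq_div_mul, ← pow_succ]
      congr 2
      omega
    omega

open Classical in
theorem win_at {θ ε : ℝ} (hθ : 0 < θ) (hε : 0 < ε) (C K : ℕ) :
    ∃ X₁ : ℕ, ∀ X : ℕ, X₁ ≤ X → ∀ (P : ℕ → Prop) (M : ℕ), (M : ℝ) ≤ Real.log X ^ C →
      (∀ Y : ℕ, (X : ℝ) ^ θ ≤ (Y : ℝ) → Y ≤ X → ∃ D : Finset ℕ, D.card ≤ M ∧
        (∀ d ∈ D, Real.log Y ^ (K + C + 2) ≤ (d : ℝ)) ∧
        (((Icc 1 Y).filter (fun n : ℕ => Y < 2 * n ∧ Even n ∧ (∀ d ∈ D, ¬ d ∣ n) ∧
          P n)).card : ℝ) ≤ (Y : ℝ) ^ (θ + ε / 2)) →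
      (((Icc 1 X).filter (fun n : ℕ => ∃ W : ℕ, n + W ≤ X ∧
        2 * (M : ℝ) + W / Real.log X ^ K < (((Icc n (n + W)).filter
          (fun m : ℕ => Even m ∧ P m)).card : ℝ))).card : ℝ) ≤ (X : ℝ) ^ (θ + ε) := by
  have hlogs : ∀ (n : ℕ) (s c : ℝ), 0 < s → 0 < c → ∀ᶠ X : ℕ in Filter.atTop,
      c * Real.log (X : ℝ) ^ n ≤ (X : ℝ) ^ s := by
    intro n s c hs hc
    have h1 := (isLittleO_log_rpow_rpow_atTop (n : ℝ) hs).bound
      (show (0 : ℝ) < 1 / c by positivity)
    have h2 := tendsto_natCast_atTop_atTop (R := ℝ) |>.eventually h1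
    filter_upwards [h2] with X hX
    have h3 := (le_abs_self _).trans hX
    rw [Real.rpow_natCast, Real.norm_of_nonneg (by positivity)] at h3
    rw [one_div, inv_mul_eq_div, le_div_iff₀ hc] at h3
    linarith
  have ht3 : Filter.Tendsto (fun X : ℕ => Real.log (X : ℝ)) Filter.atTop Filter.atTop :=
    Real.tendsto_log_atTop.comp tendsto_natCast_atTop_atTop
  have ht4 : Filter.Tendsto (fun X : ℕ => θ ^ (K + C + 2) * Real.log (X : ℝ)) Filter.atTop
      Filter.atTop := ht3.const_mul_atTop (by positivity)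
  have hev : ∀ᶠ X : ℕ in Filter.atTop, 2 ≤ X ∧ 12 * Real.log (X : ℝ) ^ (C + K + 1) ≤
      (X : ℝ) ^ θ ∧ 8 * Real.log (X : ℝ) ^ K ≤ (X : ℝ) ^ (ε / 4) ∧
      4 * Real.log (X : ℝ) ^ 1 ≤ (X : ℝ) ^ (ε / 4) ∧ 1 ≤ Real.log (X : ℝ) ∧
      12 ≤ θ ^ (K + C + 2) * Real.log (X : ℝ) := by
    filter_upwards [Filter.eventually_ge_atTop 2, hlogs (C + K + 1) θ 12 hθ (by norm_num),
      hlogs K (ε / 4) 8 (by linarith) (by norm_num), hlogs 1 (ε / 4) 4 (by linarith)
      (by norm_num), ht3.eventually_ge_atTop 1, ht4.eventually_ge_atTop 12]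
      with X a b c d e f using ⟨a, b, c, d, e, f⟩
  obtain ⟨X1, hX1⟩ := Filter.eventually_atTop.1 hev
  refine ⟨X1, fun X hX P M hMC hP => ?_⟩
  obtain ⟨hb, hc1, hc2, hc3, hl1, hl2⟩ := hX1 X hX
  have hXr : (1 : ℝ) ≤ (X : ℝ) := by
    have : 1 ≤ X := by omega
    exact_mod_cast this
  have hP' : ∀ Y : ℕ, ∃ D Ex : Finset ℕ, (X : ℝ) ^ θ ≤ (Y : ℝ) → Y ≤ X → (D.card ≤ M ∧
        (∀ d ∈ D, Real.log Y ^ (K + C + 2) ≤ (d : ℝ)) ∧
        (∀ n : ℕ, 1 ≤ n → n ≤ Y → Y < 2 * n → Even n → (∀ d ∈ D, ¬ d ∣ n) → P n → n ∈ Ex) ∧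
        (Ex.card : ℝ) ≤ (Y : ℝ) ^ (θ + ε / 2)) := by
    intro Y
    by_cases hY : (X : ℝ) ^ θ ≤ (Y : ℝ) ∧ Y ≤ X
    · obtain ⟨D, hD1, hD2, hD3⟩ := hP Y hY.1 hY.2
      exact ⟨D, _, fun _ _ => ⟨hD1, hD2, fun n a1 a2 a3 a4 a5 a6 =>
        mem_filter.2 ⟨mem_Icc.2 ⟨a1, a2⟩, a3, a4, a5, a6⟩, hD3⟩⟩
    · exact ⟨∅, ∅, fun h1 h2 => absurd ⟨h1, h2⟩ hY⟩
  choose D Ex hD using hP'
  obtain ⟨L, hL⟩ : ∃ L : ℕ, L = Nat.log 2 X + 1 := ⟨_, rfl⟩
  have hL2 : 2 ≤ L := by
    have : 1 ≤ Nat.log 2 X := Nat.log_pos (by norm_num) hb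
    omega
  have hLle : (L : ℝ) ≤ 3 * Real.log X := by
    have h1 : 2 ^ Nat.log 2 X ≤ X := Nat.pow_log_le_self 2 (by omega)
    have h2 : ((2 : ℝ) ^ Nat.log 2 X) ≤ (X : ℝ) := by exact_mod_cast h1
    have h3 : Real.log ((2 : ℝ) ^ Nat.log 2 X) ≤ Real.log X :=
      Real.log_le_log (by positivity) h2
    rw [Real.log_pow] at h3
    have h4 : (1 : ℝ) / 2 ≤ Real.log 2 := by
      have := Real.log_two_gt_d9
      linarith
    have h5 : (0 : ℝ) ≤ (Nat.log 2 X : ℝ) := Nat.cast_nonneg _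
    rw [hL]
    push_cast
    nlinarith
  -- the exceptional sets of the scales
  obtain ⟨E, hE⟩ : ∃ E : Finset ℕ, E = ((range L).filter (fun i =>
      (X : ℝ) ^ θ ≤ ((X / 2 ^ i : ℕ) : ℝ))).biUnion (fun i => Ex (X / 2 ^ i)) :=
    ⟨_, rfl⟩
  have hEc : (E.card : ℝ) ≤ L * (X : ℝ) ^ (θ + ε / 2) := by
    have h1 : (E.card : ℝ) ≤ ∑ i ∈ (range L).filter (fun i =>
        (X : ℝ) ^ θ ≤ ((X / 2 ^ i : ℕ) : ℝ)), (X : ℝ) ^ (θ + ε / 2) := by
      rw [hE]
      refine (Nat.cast_le.2 card_biUnion_le).trans ?_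
      push_cast
      refine sum_le_sum fun i hi => ?_
      rw [mem_filter] at hi
      have h2 := (hD (X / 2 ^ i) (by exact_mod_cast hi.2) (Nat.div_le_self _ _)).2.2.2
      refine h2.trans ?_
      refine Real.rpow_le_rpow (by positivity) ?_ (by linarith)
      exact_mod_cast Nat.div_le_self _ _
    refine h1.trans ?_
    rw [sum_const, nsmul_eq_mul]
    refine mul_le_mul_of_nonneg_right ?_ (by positivity)
    have h3 := card_filter_le (range L) (fun i => (X : ℝ) ^ θ ≤ ((X / 2 ^ i : ℕ) : ℝ))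
    rw [card_range] at h3
    exact_mod_cast h3
  obtain ⟨T, hT⟩ : ∃ T : ℝ, T = (X : ℝ) ^ (ε / 4) := ⟨_, rfl⟩
  have hT0 : 0 < T := by rw [hT]; positivity
  obtain ⟨l, hll⟩ : ∃ l : ℝ, l = Real.log (X : ℝ) := ⟨_, rfl⟩
  have hgr := greedy E (1 / T) X
  -- a good start
  have hgood : ∀ n : ℕ, 1 ≤ n → n ≤ X → (X : ℝ) ^ θ < (n : ℝ) →
      (¬ ∃ W : ℕ, n + W ≤ X ∧ 1 / T * (W + 1) <
        ((E.filter (fun m => n ≤ m ∧ m < n + W + 1)).card : ℝ)) →
      ∀ W : ℕ, n + W ≤ X → (((Icc n (n + W)).filter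
          (fun m : ℕ => Even m ∧ P m)).card : ℝ) ≤ 2 * (M : ℝ) + W / Real.log X ^ K := by
    intro n hn1 hnX hnt hmax W hW
    have hmax1 : ((E.filter (fun m => n ≤ m ∧ m < n + W + 1)).card : ℝ) ≤ 1 / T * (W + 1) := by
      by_contra h1
      push Not at h1
      exact hmax ⟨W, hW, h1⟩
    -- scales
    have hsc : ∃ I : Finset ℕ, (I.card ≤ 2 ∨ (I.card ≤ L ∧ n ≤ W)) ∧ ∀ m : ℕ, n ≤ m →
        m ≤ n + W → ∃ i ∈ I, m ≤ X / 2 ^ i ∧ X / 2 ^ i < 2 * m := by
      by_cases hWn : n ≤ W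
      · refine ⟨range L, Or.inr ⟨by rw [card_range], hWn⟩, fun m hm1 hm2 => ?_⟩
        obtain ⟨i, hi1, hi2⟩ := scale_ex (X := X) (m := m) (by omega) (by omega)
        exact ⟨i, by rw [mem_range, hL]; exact hi1, hi2⟩
      · push Not at hWn
        obtain ⟨I, hI1, hI2⟩ := scale_two hn1 hnX
        exact ⟨I, Or.inl hI1, fun m hm1 hm2 => hI2 m hm1 (by omega) (by omega)⟩
    obtain ⟨I, hI1, hI2⟩ := hsc
    have hIL : I.card ≤ L := by
      rcases hI1 with h1 | h1
      · omega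
      · exact h1.1
    obtain ⟨del, hdel⟩ : ∃ del : ℝ, del = (θ * l) ^ (K + C + 2) := ⟨_, rfl⟩
    have hdel0 : 0 < del := by
      rw [hdel]
      have : 0 < l := by rw [hll]; linarith
      positivity
    have hkey : ∀ Y : ℕ, n ≤ Y → Y ≤ X → ((D Y).card ≤ M ∧ (∀ d ∈ D Y, del ≤ (d : ℝ))) := by
      intro Y hY1 hY2
      have hYn : (n : ℝ) ≤ (Y : ℝ) := by exact_mod_cast hY1
      have hYt : (X : ℝ) ^ θ ≤ (Y : ℝ) := by linarith
      obtain ⟨e1, e2, _⟩ := hD Y hYt hY2
      refine ⟨e1, fun d hd => le_trans ?_ (e2 d hd)⟩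
      rw [hdel, hll]
      refine pow_le_pow_left₀ (by positivity) ?_ _
      rw [← Real.log_rpow (by linarith)]
      exact Real.log_le_log (by positivity) hYt
    have hsub : (Icc n (n + W)).filter (fun m : ℕ => Even m ∧ P m) ⊆
        E.filter (fun m => n ≤ m ∧ m < n + W + 1) ∪
        (I.filter (fun i => n ≤ X / 2 ^ i)).biUnion (fun i => (D (X / 2 ^ i)).biUnion
          (fun d => (Icc n (n + W)).filter (fun m => d ∣ m))) := by
      intro m hm
      rw [mem_filter, mem_Icc] at hm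
      obtain ⟨⟨hm1, hm2⟩, hm3, hm4⟩ := hm
      obtain ⟨i, hi0, hi1, hi2⟩ := hI2 m hm1 hm2
      rw [mem_union]
      by_cases hex : ∃ d ∈ D (X / 2 ^ i), d ∣ m
      · obtain ⟨d, hd1, hd2⟩ := hex
        refine Or.inr (mem_biUnion.2 ⟨i, mem_filter.2 ⟨hi0, by omega⟩, mem_biUnion.2
          ⟨d, hd1, mem_filter.2 ⟨mem_Icc.2 ⟨hm1, hm2⟩, hd2⟩⟩⟩)
      · push Not at hex
        refine Or.inl (mem_filter.2 ⟨?_, hm1, by omega⟩)
        have hnY : n ≤ X / 2 ^ i := by omega
        have hnY' : (n : ℝ) ≤ ((X / 2 ^ i : ℕ) : ℝ) := by exact_mod_cast hnY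
        have hiL : i < L := by
          rw [hL]
          have h5 : 2 ^ i ≤ X := by
            have h6 : 0 < X / 2 ^ i := by omega
            by_contra h7
            push Not at h7
            rw [Nat.div_eq_of_lt h7] at h6
            exact lt_irrefl _ h6
          exact Nat.lt_succ_of_le (Nat.le_log_of_pow_le (by norm_num) h5)
        rw [hE]
        refine mem_biUnion.2 ⟨i, mem_filter.2 ⟨mem_range.2 hiL, by linarith⟩, ?_⟩
        exact (hD (X / 2 ^ i) (by linarith) (Nat.div_le_self _ _)).2.2.1 m (by omega) hi1 hi2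
          hm3 hex hm4
    have hmul : (((I.filter (fun i => n ≤ X / 2 ^ i)).biUnion (fun i => (D (X / 2 ^ i)).biUnion
          (fun d => (Icc n (n + W)).filter (fun m => d ∣ m)))).card : ℝ) ≤
        (I.card : ℝ) * (M * (1 + W / del)) := by
      have h1 : (((I.filter (fun i => n ≤ X / 2 ^ i)).biUnion (fun i => (D (X / 2 ^ i)).biUnion
          (fun d => (Icc n (n + W)).filter (fun m => d ∣ m)))).card : ℝ) ≤
          ∑ i ∈ I.filter (fun i => n ≤ X / 2 ^ i), (M * (1 + W / del) : ℝ) := by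
        refine (Nat.cast_le.2 card_biUnion_le).trans ?_
        push_cast
        refine sum_le_sum fun i hi => ?_
        rw [mem_filter] at hi
        obtain ⟨f1, f2⟩ := hkey _ hi.2 (Nat.div_le_self _ _)
        have h2 : (((D (X / 2 ^ i)).biUnion
          (fun d => (Icc n (n + W)).filter (fun m => d ∣ m))).card : ℝ) ≤
            ∑ d ∈ D (X / 2 ^ i), (1 + W / del : ℝ) := by
          refine (Nat.cast_le.2 card_biUnion_le).trans ?_
          push_cast
          refine sum_le_sum fun d hd => ?_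
          have hd1 := f2 d hd
          have h3 := mult_card d n W
          have h4 : (((Icc n (n + W)).filter (fun m => d ∣ m)).card : ℝ) ≤
              ((W / d : ℕ) : ℝ) + 1 := by exact_mod_cast h3
          have h5 : ((W / d : ℕ) : ℝ) ≤ (W : ℝ) / d := Nat.cast_div_le
          have h6 : (W : ℝ) / d ≤ W / del :=
            div_le_div_of_nonneg_left (Nat.cast_nonneg _) hdel0 hd1
          linarith
        refine h2.trans ?_
        rw [sum_const, nsmul_eq_mul]
        refine mul_le_mul_of_nonneg_right (by exact_mod_cast f1) ?_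
        have : (0 : ℝ) ≤ W / del := div_nonneg (Nat.cast_nonneg _) hdel0.le
        linarith
      refine h1.trans ?_
      rw [sum_const, nsmul_eq_mul]
      refine mul_le_mul_of_nonneg_right ?_ ?_
      · exact_mod_cast card_filter_le _ _
      · have : (0 : ℝ) ≤ W / del := div_nonneg (Nat.cast_nonneg _) hdel0.le
        positivity
    have htot : (((Icc n (n + W)).filter (fun m : ℕ => Even m ∧ P m)).card : ℝ) ≤
        ((E.filter (fun m => n ≤ m ∧ m < n + W + 1)).card : ℝ) +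
        (I.card : ℝ) * (M * (1 + W / del)) := by
      have h1 := (card_le_card hsub).trans (card_union_le _ _)
      have h2 : (((Icc n (n + W)).filter (fun m : ℕ => Even m ∧ P m)).card : ℝ) ≤
        ((E.filter (fun m => n ≤ m ∧ m < n + W + 1)).card : ℝ) +
        (((I.filter (fun i => n ≤ X / 2 ^ i)).biUnion (fun i => (D (X / 2 ^ i)).biUnion
          (fun d => (Icc n (n + W)).filter (fun m => d ∣ m)))).card : ℝ) := by
        exact_mod_cast h1
      linarith
    -- numbers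
    rw [← hll] at hl1 hl2 hc1 hc2 hc3 hMC hLle ⊢
    rw [← hT] at hc2 hc3
    have hl0 : 0 < l := by linarith
    have hlK : (1 : ℝ) ≤ l ^ K := one_le_pow₀ hl1
    have hlK0 : (0 : ℝ) < l ^ K := by positivity
    have hW0 : (0 : ℝ) ≤ (W : ℝ) := Nat.cast_nonneg _
    have hM0 : (0 : ℝ) ≤ (M : ℝ) := Nat.cast_nonneg _
    have hEpart : ((E.filter (fun m => n ≤ m ∧ m < n + W + 1)).card : ℝ) ≤
        W / l ^ K / 4 := by
      by_cases hWT : (W : ℝ) + 1 < T
      · have h1 : 1 / T * ((W : ℝ) + 1) < 1 := by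
          rw [one_div, inv_mul_eq_div, div_lt_one hT0]
          exact hWT
        have h2 : ((E.filter (fun m => n ≤ m ∧ m < n + W + 1)).card : ℝ) < 1 := by linarith
        have h3 : (E.filter (fun m => n ≤ m ∧ m < n + W + 1)).card < 1 := by exact_mod_cast h2
        have h4 : (E.filter (fun m => n ≤ m ∧ m < n + W + 1)).card = 0 := by omega
        rw [h4]
        push_cast
        positivity
      · push Not at hWT
        have h1 : (1 : ℝ) ≤ (W : ℝ) := by
          have h2 : (0 : ℝ) < (W : ℝ) := by nlinarith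
          have h3 : 0 < W := by exact_mod_cast h2
          exact_mod_cast h3
        refine hmax1.trans ?_
        rw [one_div, inv_mul_eq_div, div_div, div_le_div_iff₀ hT0 (by positivity)]
        nlinarith
    have hdelb : (L : ℝ) * M * 4 * l ^ K ≤ del := by
      have h1 : del = (θ ^ (K + C + 2) * l) * l ^ (K + C + 1) := by
        rw [hdel, mul_pow]
        have : K + C + 2 = (K + C + 1) + 1 := by ring
        rw [this, pow_succ l, pow_succ θ]
        ring
      rw [h1]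
      have h2 : (L : ℝ) * M ≤ (3 * l) * l ^ C := mul_le_mul hLle hMC hM0 (by positivity)
      have h3 : (3 * l) * l ^ C * 4 * l ^ K = 12 * l ^ (K + C + 1) := by
        have : K + C + 1 = 1 + C + K := by ring
        rw [this, pow_add, pow_add, pow_one]
        ring
      have h4 : (L : ℝ) * M * 4 * l ^ K ≤ (3 * l) * l ^ C * 4 * l ^ K := by
        refine mul_le_mul_of_nonneg_right ?_ hlK0.le
        linarith
      have h5 : (0 : ℝ) ≤ l ^ (K + C + 1) := by positivity
      nlinarith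
    have hdiv : (L : ℝ) * M * (W / del) ≤ W / l ^ K / 4 := by
      rw [mul_div_assoc', div_div, div_le_div_iff₀ hdel0 (by positivity)]
      nlinarith
    have hIcL : (I.card : ℝ) * M * (W / del) ≤ (L : ℝ) * M * (W / del) := by
      refine mul_le_mul_of_nonneg_right (mul_le_mul_of_nonneg_right ?_ hM0) ?_
      · exact_mod_cast hIL
      · exact div_nonneg hW0 hdel0.le
    have hWK : (0 : ℝ) ≤ W / l ^ K := div_nonneg hW0 hlK0.le
    have hexp : (I.card : ℝ) * (M * (1 + W / del)) = I.card * M + I.card * M * (W / del) := by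
      ring
    rw [hexp] at htot
    rcases hI1 with h1 | ⟨h1, h2⟩
    · have h3 : (I.card : ℝ) * M ≤ 2 * M := by
        refine mul_le_mul_of_nonneg_right ?_ hM0
        exact_mod_cast h1
      linarith
    · have h3 : (I.card : ℝ) * M ≤ (3 * l) * l ^ C := by
        refine mul_le_mul ?_ hMC hM0 (by positivity)
        have : (I.card : ℝ) ≤ (L : ℝ) := by exact_mod_cast h1
        linarith
      have h4 : (n : ℝ) ≤ (W : ℝ) := by exact_mod_cast h2
      have h5 : (3 * l) * l ^ C ≤ W / l ^ K / 4 := by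
        rw [div_div, le_div_iff₀ (by positivity)]
        have h6 : (3 * l) * l ^ C * (l ^ K * 4) = 12 * l ^ (C + K + 1) := by
          rw [pow_add, pow_add, pow_one]
          ring
        rw [h6]
        linarith
      linarith
  -- the exceptional starts
  have hsub2 : (Icc 1 X).filter (fun n : ℕ => ∃ W : ℕ, n + W ≤ X ∧
        2 * (M : ℝ) + W / Real.log X ^ K < (((Icc n (n + W)).filter
          (fun m : ℕ => Even m ∧ P m)).card : ℝ)) ⊆
      Icc 1 ⌊(X : ℝ) ^ θ⌋₊ ∪ (Icc 1 X).filter (fun n => ∃ W : ℕ, n + W ≤ X ∧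
        1 / T * (W + 1) < ((E.filter (fun m => n ≤ m ∧ m < n + W + 1)).card : ℝ)) := by
    intro n hn
    rw [mem_filter, mem_Icc] at hn
    obtain ⟨⟨hn1, hnX⟩, W, hW1, hW2⟩ := hn
    rw [mem_union]
    by_cases hsm : (n : ℝ) ≤ (X : ℝ) ^ θ
    · exact Or.inl (mem_Icc.2 ⟨hn1, Nat.le_floor hsm⟩)
    · push Not at hsm
      refine Or.inr (mem_filter.2 ⟨mem_Icc.2 ⟨hn1, hnX⟩, ?_⟩)
      by_contra hcon
      have := hgood n hn1 hnX hsm hcon W hW1
      linarith
  have h6 : ((Icc 1 ⌊(X : ℝ) ^ θ⌋₊).card : ℝ) ≤ (X : ℝ) ^ θ := by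
    rw [Nat.card_Icc, Nat.add_sub_cancel]
    exact Nat.floor_le (by positivity)
  have h7 := (card_le_card hsub2).trans (card_union_le _ _)
  have h8 : (((Icc 1 X).filter (fun n => ∃ W : ℕ, n + W ≤ X ∧
        1 / T * (W + 1) < ((E.filter (fun m => n ≤ m ∧ m < n + W + 1)).card : ℝ))).card : ℝ) ≤
      T * (L * (X : ℝ) ^ (θ + ε / 2)) := by
    have aux : ∀ a b : ℝ, 1 / T * a ≤ b → a ≤ T * b := by
      intro a b h
      have h1 := mul_le_mul_of_nonneg_left h hT0.le
      rwa [← mul_assoc, mul_one_div_cancel hT0.ne', one_mul] at h1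
    exact aux _ _ (hgr.trans hEc)
  have h10 : (((Icc 1 X).filter (fun n : ℕ => ∃ W : ℕ, n + W ≤ X ∧
        2 * (M : ℝ) + W / Real.log X ^ K < (((Icc n (n + W)).filter
          (fun m : ℕ => Even m ∧ P m)).card : ℝ))).card : ℝ) ≤
      (X : ℝ) ^ θ + T * (L * (X : ℝ) ^ (θ + ε / 2)) := by
    have h11 : (((Icc 1 X).filter (fun n : ℕ => ∃ W : ℕ, n + W ≤ X ∧
        2 * (M : ℝ) + W / Real.log X ^ K < (((Icc n (n + W)).filter
          (fun m : ℕ => Even m ∧ P m)).card : ℝ))).card : ℝ) ≤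
        ((Icc 1 ⌊(X : ℝ) ^ θ⌋₊).card : ℝ) + (((Icc 1 X).filter (fun n => ∃ W : ℕ, n + W ≤ X ∧
        1 / T * (W + 1) < ((E.filter (fun m => n ≤ m ∧ m < n + W + 1)).card : ℝ))).card : ℝ) := by
      exact_mod_cast h7
    linarith
  refine h10.trans ?_
  have g1 : (X : ℝ) ^ (θ + ε) = (X : ℝ) ^ (θ + ε / 2) * (T * T) := by
    rw [hT, ← Real.rpow_add (by linarith), ← Real.rpow_add (by linarith)]
    congr 1
    ring
  have g2 : (X : ℝ) ^ θ ≤ (X : ℝ) ^ (θ + ε / 2) :=
    Real.rpow_le_rpow_of_exponent_le hXr (by linarith)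
  rw [g1]
  obtain ⟨a, haa⟩ : ∃ a : ℝ, a = (X : ℝ) ^ (θ + ε / 2) := ⟨_, rfl⟩
  have ha0 : 0 < a := by rw [haa]; positivity
  rw [← haa] at g2 ⊢
  rw [← hT, pow_one] at hc3
  have g3 : (1 : ℝ) ≤ T := by linarith
  have g4 : (1 : ℝ) + T * L ≤ T * T := by
    have : (1 : ℝ) + L ≤ T := by linarith
    nlinarith
  nlinarith

open Classical in
/-- windows for a fixed `M` -/
theorem winA_of {P : ℕ → Prop} {θ ε : ℝ} (hθ : 0 < θ) (hε : 0 < ε) (M K : ℕ)
    (h : ∃ X₀ : ℕ, ∀ X : ℕ, X₀ ≤ X → ∃ D : Finset ℕ, D.card ≤ M ∧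
      (∀ d ∈ D, Real.log X ^ (K + 3) ≤ (d : ℝ)) ∧
      (((Icc 1 X).filter (fun n : ℕ => X < 2 * n ∧ Even n ∧ (∀ d ∈ D, ¬ d ∣ n) ∧
        P n)).card : ℝ) ≤ (X : ℝ) ^ (θ + ε / 2)) :
    ∃ X₀ : ℕ, ∀ X : ℕ, X₀ ≤ X →
      (((Icc 1 X).filter (fun n : ℕ => ∃ W : ℕ, n + W ≤ X ∧
        2 * (M : ℝ) + W / Real.log X ^ K < (((Icc n (n + W)).filter
          (fun m : ℕ => Even m ∧ P m)).card : ℝ))).card : ℝ) ≤ (X : ℝ) ^ (θ + ε) := by
  obtain ⟨X0, hX0⟩ := h
  obtain ⟨X1, hX1⟩ := win_at hθ hε 1 K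
  have ht1 : Filter.Tendsto (fun X : ℕ => (X : ℝ) ^ θ) Filter.atTop Filter.atTop :=
    (tendsto_rpow_atTop hθ).comp tendsto_natCast_atTop_atTop
  have ht3 : Filter.Tendsto (fun X : ℕ => Real.log (X : ℝ)) Filter.atTop Filter.atTop :=
    Real.tendsto_log_atTop.comp tendsto_natCast_atTop_atTop
  have hev : ∀ᶠ X : ℕ in Filter.atTop, X1 ≤ X ∧ (X0 : ℝ) ≤ (X : ℝ) ^ θ ∧
      (M : ℝ) ≤ Real.log (X : ℝ) := by
    filter_upwards [Filter.eventually_ge_atTop X1, ht1.eventually_ge_atTop (X0 : ℝ),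
      ht3.eventually_ge_atTop (M : ℝ)] with X a b c using ⟨a, b, c⟩
  obtain ⟨X2, hX2⟩ := Filter.eventually_atTop.1 hev
  refine ⟨X2, fun X hX => ?_⟩
  obtain ⟨a, b, c⟩ := hX2 X hX
  refine hX1 X a P M (by rw [pow_one]; exact c) fun Y hY _ => ?_
  have hY0 : X0 ≤ Y := by
    have : (X0 : ℝ) ≤ (Y : ℝ) := b.trans hY
    exact_mod_cast this
  exact hX0 Y hY0

end Pool.MP_dd84fd_nt.XP
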