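import Mathlib

/-!
# Even numbers with a large prime factor: only the small modulus matters (helper44)

Let `D` be a set of integers `d ≤ X^(1-θ)` and `1/M ≤ θ`.  If `n ≤ X` has a prime factor
`p > X^(1-1/M)`, then every `d ∈ D` dividing `n` is less than `X^(1/M)`: `p ∤ d`, so `d` divides
`n/p < X^(1/M)`.  So for these `n` (a positive proportion of all `n`) only the members of `D` below
`X^(1/M)` matter: at most one in the theorems of this project.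
-/

set_option autoImplicit false

namespace Pool.MP_dd84fd_nt.XP

open Finset

/-- a divisor `d ≤ X^(1-θ)` of an `n ≤ X` with a prime factor `> X^(1-1/M)` is `< X^(1/M)` -/
theorem big_at {X M : ℕ} {θ : ℝ} (hM : 1 / (M : ℝ) ≤ θ) (hX : 1 ≤ X) {n p d : ℕ} (hn : 1 ≤ n)
    (hnX : n ≤ X) (hp : p.Prime) (hpn : p ∣ n) (hpX : (X : ℝ) ^ (1 - 1 / (M : ℝ)) < p)
    (hd : (d : ℝ) ≤ (X : ℝ) ^ (1 - θ)) (hdn : d ∣ n) : (d : ℝ) < (X : ℝ) ^ (1 / (M : ℝ)) := by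
  have hXR : (1 : ℝ) ≤ X := by exact_mod_cast hX
  have hXp : (0 : ℝ) < X := by linarith
  have hd0 : 0 < d := Nat.pos_of_dvd_of_pos hdn hn
  have h1 : (d : ℝ) < p := by
    refine lt_of_le_of_lt hd (lt_of_le_of_lt ?_ hpX)
    exact Real.rpow_le_rpow_of_exponent_le hXR (by linarith)
  have h2 : d < p := by exact_mod_cast h1
  have h3 : Nat.Coprime p d := (Nat.Prime.coprime_iff_not_dvd hp).2 fun h =>
    absurd (Nat.le_of_dvd hd0 h) (by omega)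
  have h4 : p * d ∣ n := h3.mul_dvd_of_dvd_of_dvd hpn hdn
  have h5 : p * d ≤ X := (Nat.le_of_dvd hn h4).trans hnX
  have h6 : (p : ℝ) * d ≤ X := by exact_mod_cast h5
  have hdR : (0 : ℝ) < d := by exact_mod_cast hd0
  have h7 : (X : ℝ) ^ (1 - 1 / (M : ℝ)) * d < X :=
    lt_of_lt_of_le (mul_lt_mul_of_pos_right hpX hdR) h6
  have h8 : (X : ℝ) = (X : ℝ) ^ (1 - 1 / (M : ℝ)) * (X : ℝ) ^ (1 / (M : ℝ)) := by
    rw [← Real.rpow_add hXp]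
    norm_num
  have h9 : (X : ℝ) ^ (1 - 1 / (M : ℝ)) * d <
      (X : ℝ) ^ (1 - 1 / (M : ℝ)) * (X : ℝ) ^ (1 / (M : ℝ)) := lt_of_lt_of_eq h7 h8
  exact lt_of_mul_lt_mul_left h9 (by positivity)

open Classical in
/-- the clause for the even numbers with a large prime factor, from the clause with `D` -/
theorem big_of {P : ℕ → Prop} {θ b : ℝ} {M X : ℕ} (hM : 1 / (M : ℝ) ≤ θ) (hX : 1 ≤ X)
    {D : Finset ℕ} (hD : ∀ d ∈ D, (d : ℝ) ≤ (X : ℝ) ^ (1 - θ))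
    (h : (((Icc 1 X).filter (fun n : ℕ => X < 2 * n ∧ Even n ∧ (∀ d ∈ D, ¬ d ∣ n) ∧
      P n)).card : ℝ) ≤ b) :
    (((Icc 1 X).filter (fun n : ℕ => X < 2 * n ∧ Even n ∧
      (∃ p : ℕ, p.Prime ∧ p ∣ n ∧ (X : ℝ) ^ (1 - 1 / (M : ℝ)) < p) ∧
      (∀ d ∈ D, (d : ℝ) < (X : ℝ) ^ (1 / (M : ℝ)) → ¬ d ∣ n) ∧ P n)).card : ℝ) ≤ b := by
  refine le_trans ?_ h
  have hsub : (Icc 1 X).filter (fun n : ℕ => X < 2 * n ∧ Even n ∧
      (∃ p : ℕ, p.Prime ∧ p ∣ n ∧ (X : ℝ) ^ (1 - 1 / (M : ℝ)) < p) ∧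
      (∀ d ∈ D, (d : ℝ) < (X : ℝ) ^ (1 / (M : ℝ)) → ¬ d ∣ n) ∧ P n) ⊆
      (Icc 1 X).filter (fun n : ℕ => X < 2 * n ∧ Even n ∧ (∀ d ∈ D, ¬ d ∣ n) ∧ P n) := by
    intro n hn
    rw [mem_filter, mem_Icc] at hn ⊢
    obtain ⟨⟨n1, n2⟩, n3, n4, ⟨p, p1, p2, p3⟩, n5, n6⟩ := hn
    exact ⟨⟨n1, n2⟩, n3, n4, fun d hd hdn =>
      n5 d hd (big_at hM hX n1 n2 p1 p2 p3 (hD d hd) hdn) hdn, n6⟩
  exact_mod_cast card_le_card hsub

end Pool.MP_dd84fd_nt.XP
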