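import Mathlib

/-!
# Even numbers with a very large prime factor, from the clause on families (helper44)

The even `n ≤ X` with a prime factor `p > X/(log X)^K` are `p m` with `m < (log X)^K`; for fixed `m` they
have pairwise greatest common divisor `m`.
-/

set_option autoImplicit false

namespace Pool.MP_dd84fd_nt.XP

open Finset Filter

open Classical in
theorem big_fam {P : ℕ → Prop} {θ ε : ℝ} (hε : 0 < ε) (K : ℕ)
    (h : ∃ X₀ : ℕ, ∀ X : ℕ, X₀ ≤ X → ∀ N : Finset ℕ, (∀ n ∈ N, 1 ≤ n ∧ n ≤ X ∧ Even n) →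
      (∀ n ∈ N, ∀ m ∈ N, n ≠ m → (Nat.gcd n m : ℝ) < Real.log X ^ K) →
      ((N.filter P).card : ℝ) ≤ (X : ℝ) ^ (θ + ε / 2)) :
    ∃ X₀ : ℕ, ∀ X : ℕ, X₀ ≤ X → (((Icc 1 X).filter (fun n : ℕ => Even n ∧
      (∃ p : ℕ, p.Prime ∧ p ∣ n ∧ (X : ℝ) / Real.log X ^ K < p) ∧ P n)).card : ℝ) ≤
        (X : ℝ) ^ (θ + ε) := by
  obtain ⟨X0, hX0⟩ := h
  have ht : ∀ᶠ X : ℕ in atTop, Real.log (X : ℝ) ^ K ≤ (X : ℝ) ^ (ε / 2) := by
    have h1 := (isLittleO_log_rpow_rpow_atTop (K : ℝ) (show 0 < ε / 2 by linarith)).bound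
      (show (0 : ℝ) < 1 by norm_num)
    have h2 := tendsto_natCast_atTop_atTop (R := ℝ) |>.eventually h1
    filter_upwards [h2] with X hX
    have h3 := (le_abs_self _).trans hX
    rw [Real.rpow_natCast, Real.norm_of_nonneg (by positivity)] at h3
    linarith
  have ht3 : Tendsto (fun X : ℕ => Real.log (X : ℝ)) atTop atTop :=
    Real.tendsto_log_atTop.comp tendsto_natCast_atTop_atTop
  obtain ⟨X1, hX1⟩ := eventually_atTop.1
    ((ht.and (eventually_ge_atTop 1)).and (ht3.eventually_ge_atTop 1))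
  refine ⟨max X0 X1, fun X hX => ?_⟩
  obtain ⟨⟨y1, y2⟩, y3⟩ := hX1 X ((le_max_right _ _).trans hX)
  have hXR : (1 : ℝ) ≤ X := by exact_mod_cast y2
  have hXp : (0 : ℝ) < X := by linarith
  obtain ⟨L, hL⟩ : ∃ L : ℝ, L = Real.log X := ⟨_, rfl⟩
  have hfam := hX0 X ((le_max_left _ _).trans hX)
  rw [← hL] at y1 y3 hfam ⊢
  have hLK : 0 < L ^ K := by positivity
  obtain ⟨S, hS⟩ : ∃ S : ℕ → Finset ℕ, S = fun m => (Icc 1 X).filter (fun n : ℕ => Even n ∧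
    ∃ p : ℕ, p.Prime ∧ n = m * p ∧ (X : ℝ) / L ^ K < p) := ⟨_, rfl⟩
  -- the cofactor is small
  have hm : ∀ m p : ℕ, m * p ≤ X → (X : ℝ) / L ^ K < p → (m : ℝ) < L ^ K := by
    intro m p h1 h2
    have h3 : (m : ℝ) * p ≤ X := by exact_mod_cast h1
    rw [div_lt_iff₀ hLK] at h2
    have h4 : (0 : ℝ) < p := by
      by_contra hcon
      push Not at hcon
      nlinarith
    by_contra hcon
    push Not at hcon
    nlinarith
  have hfm : ∀ m : ℕ, (((S m).filter P).card : ℝ) ≤ (X : ℝ) ^ (θ + ε / 2) := by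
    intro m
    refine hfam (S m) ?_ ?_
    · intro n hn
      rw [hS, mem_filter, mem_Icc] at hn
      exact ⟨hn.1.1, hn.1.2, hn.2.1⟩
    · intro n hn n' hn' hne
      rw [hS, mem_filter, mem_Icc] at hn hn'
      obtain ⟨⟨-, a1⟩, -, p, p1, p2, p3⟩ := hn
      obtain ⟨-, -, q, q1, q2, -⟩ := hn'
      have hpq : p ≠ q := by
        rintro rfl
        exact hne (p2.trans q2.symm)
      have hg : Nat.gcd n n' = m := by
        rw [p2, q2, Nat.gcd_mul_left, (Nat.coprime_primes p1 q1).2 hpq, mul_one]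
      rw [hg]
      exact hm m p (by rw [← p2]; exact a1) p3
  have hsub : (Icc 1 X).filter (fun n : ℕ => Even n ∧
      (∃ p : ℕ, p.Prime ∧ p ∣ n ∧ (X : ℝ) / L ^ K < p) ∧ P n) ⊆
      (Icc 1 ⌊L ^ K⌋₊).biUnion (fun m => (S m).filter P) := by
    intro n hn
    rw [mem_filter, mem_Icc] at hn
    obtain ⟨⟨n1, n2⟩, n3, ⟨p, p1, ⟨m, rfl⟩, p3⟩, n5⟩ := hn
    rw [mem_biUnion]
    have h1 : (m : ℝ) < L ^ K := hm m p (by rw [mul_comm]; exact n2) p3
    have hm0 : 1 ≤ m := by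
      rcases Nat.eq_zero_or_pos m with h | h
      · rw [h] at n1
        omega
      · exact h
    refine ⟨m, mem_Icc.2 ⟨hm0, Nat.le_floor h1.le⟩, ?_⟩
    rw [mem_filter, hS, mem_filter, mem_Icc]
    exact ⟨⟨⟨n1, n2⟩, n3, p, p1, mul_comm p m, p3⟩, n5⟩
  calc (((Icc 1 X).filter (fun n : ℕ => Even n ∧
      (∃ p : ℕ, p.Prime ∧ p ∣ n ∧ (X : ℝ) / L ^ K < p) ∧ P n)).card : ℝ) ≤
        (((Icc 1 ⌊L ^ K⌋₊).biUnion (fun m => (S m).filter P)).card : ℝ) := by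
        exact_mod_cast card_le_card hsub
    _ ≤ ((∑ m ∈ Icc 1 ⌊L ^ K⌋₊, ((S m).filter P).card : ℕ) : ℝ) := by
        exact_mod_cast card_biUnion_le
    _ = ∑ m ∈ Icc 1 ⌊L ^ K⌋₊, (((S m).filter P).card : ℝ) := by push_cast; rfl
    _ ≤ (Icc 1 ⌊L ^ K⌋₊).card • (X : ℝ) ^ (θ + ε / 2) := sum_le_card_nsmul _ _ _ fun m _ => hfm m
    _ ≤ (X : ℝ) ^ (ε / 2) * (X : ℝ) ^ (θ + ε / 2) := by
        rw [nsmul_eq_mul, Nat.card_Icc, Nat.add_sub_cancel]
        refine mul_le_mul_of_nonneg_right ?_ (by positivity)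
        exact (Nat.floor_le (by positivity)).trans y1
    _ = (X : ℝ) ^ (θ + ε) := by
        rw [← Real.rpow_add hXp]
        congr 1
        ring

end Pool.MP_dd84fd_nt.XP
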