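import Pool.Agent.Lib.MP_dd84fd_nt.XP.TwoP

/-!
# `two_p` for sets

The lemma `two_p` with `Set.ncard` and a property `Q` which all but few of the even `n` divisible by
no `d ∈ D` have.
-/

set_option autoImplicit false

namespace Pool.MP_dd84fd_nt.XP

open Finset

open Classical in
/-- `two_p` with `Set.ncard` and a property `Q` that all but few `n` have -/
theorem two_p_set {Q : ℕ → Prop} {θ ε : ℝ} (h1 : 1 / 7 ≤ θ) (hε : 0 < ε)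
    (h : ∃ X₀ : ℕ, ∀ X : ℕ, X₀ ≤ X → ∃ D : Finset ℕ, (∀ d ∈ D, Real.log X ^ 1 ≤ (d : ℝ)) ∧
      (Set.ncard {n : ℕ | 1 ≤ n ∧ n ≤ X ∧ Even n ∧
        (∀ d ∈ D, (d : ℝ) ≤ (n : ℝ) ^ (1 - θ) → ¬ d ∣ n) ∧ ¬ Q n} : ℝ) ≤
          (X : ℝ) ^ (θ + ε / 2)) :
    ∃ X₀ : ℕ, ∀ X : ℕ, X₀ ≤ X →
      (Set.ncard {p : ℕ | p.Prime ∧ p ≤ X ∧ ¬ Q (2 * p)} : ℝ) ≤ (X : ℝ) ^ (θ + ε) := by
  obtain ⟨X1, hX1⟩ := two_p (P := fun n => ¬ Q n) (θ := θ) (ε := ε) h1 hε (by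
    obtain ⟨X0, hX0⟩ := h
    refine ⟨X0, fun X hX => ?_⟩
    obtain ⟨D, hD1, hD2⟩ := hX0 X hX
    refine ⟨D, hD1, ?_⟩
    rw [← Set.ncard_coe_finset]
    refine le_trans (le_of_eq ?_) hD2
    congr 2
    ext n
    simp only [coe_filter, mem_Icc, Set.mem_ofPred_eq]
    tauto)
  refine ⟨X1, fun X hX => ?_⟩
  have h2 := hX1 X hX
  rw [← Set.ncard_coe_finset] at h2
  refine le_trans (le_of_eq ?_) h2
  congr 2
  ext p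
  simp only [coe_filter, mem_Icc, Set.mem_ofPred_eq]
  constructor
  · rintro ⟨a, b, c⟩
    exact ⟨⟨a.one_lt.le, b⟩, a, c⟩
  · rintro ⟨⟨_, b⟩, a, c⟩
    exact ⟨a, b, c⟩

end Pool.MP_dd84fd_nt.XP
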